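import Pool.Agent.X143.PC.Count

/-!
# Grid chains attached to a long subsequence made of small blocks
-/

namespace Pool.Agent.X143.PC

open Finset Equiv

/-- Merging of consecutive small blocks. -/
theorem merge {m k : ℕ} (R : Fin m → Fin m → Prop) (g₀ : Fin m → ℕ)
    (hg₀ : ∀ i j, g₀ i < g₀ j → R i j)
    (hk₀ : ∀ v, (univ.filter (fun i => g₀ i = v)).card ≤ k) :
    ∃ (M : ℕ) (g : Fin m → ℕ), (M / 2) * (k + 1) ≤ m ∧ (∀ i, g i < M) ∧
      (∀ i j, g i < g j → R i j) ∧ ∀ v, (univ.filter (fun i => g i = v)).card ≤ k := by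
  classical
  have hex : ∃ M : ℕ, ∃ g : Fin m → ℕ, (∀ i, g i < M) ∧ (∀ i j, g i < g j → R i j) ∧
      ∀ v, (univ.filter (fun i => g i = v)).card ≤ k := by
    refine ⟨univ.sup g₀ + 1, g₀, fun i => ?_, hg₀, hk₀⟩
    exact Nat.lt_succ_of_le (Finset.le_sup (f := g₀) (mem_univ i))
  obtain ⟨g, h1, h2, h3⟩ := Nat.find_spec hex
  set M := Nat.find hex with hM
  refine ⟨M, g, ?_, h1, h2, h3⟩
  have hpair : ∀ j, j + 1 < M → k + 1 ≤ (univ.filter (fun i => g i = j)).card +
      (univ.filter (fun i => g i = j + 1)).card := by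
    intro j hj
    by_contra hlt
    have hlt' : (univ.filter (fun i => g i = j)).card +
      (univ.filter (fun i => g i = j + 1)).card ≤ k := by omega
    have hmin := Nat.find_min hex (m := M - 1) (by omega)
    apply hmin
    refine ⟨fun i => if g i ≤ j then g i else g i - 1, ?_, ?_, ?_⟩
    · intro i
      have := h1 i
      show (if g i ≤ j then g i else g i - 1) < M - 1
      split_ifs <;> omega
    · intro a b hab
      apply h2
      simp only at hab
      split_ifs at hab <;> omega
    · intro v
      rcases lt_trichotomy v j with hv | hv | hv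
      · refine le_trans (Finset.card_le_card ?_) (h3 v)
        intro i hi
        simp only [mem_filter, mem_univ, true_and] at hi ⊢
        split_ifs at hi <;> omega
      · refine le_trans (Finset.card_le_card ?_) (le_trans (Finset.card_union_le _ _) hlt')
        intro i hi
        simp only [mem_filter, mem_univ, true_and, mem_union] at hi ⊢
        split_ifs at hi <;> omega
      · refine le_trans (Finset.card_le_card ?_) (h3 (v + 1))
        intro i hi
        simp only [mem_filter, mem_univ, true_and] at hi ⊢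
        split_ifs at hi <;> omega
  have hsum : ∀ a, 2 * a ≤ M → a * (k + 1) ≤
      ∑ v ∈ range (2 * a), (univ.filter (fun i => g i = v)).card := by
    intro a
    induction a with
    | zero => intro _; simp
    | succ a ih =>
      intro ha
      have h4 := ih (by omega)
      have h5 := hpair (2 * a) (by omega)
      rw [show 2 * (a + 1) = 2 * a + 1 + 1 by ring, sum_range_succ, sum_range_succ]
      calc (a + 1) * (k + 1) = a * (k + 1) + (k + 1) := by ring
        _ ≤ _ := by omega
  have htot : ∀ b, ∑ v ∈ range b, (univ.filter (fun i => g i = v)).card ≤ m := by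
    intro b
    rw [← Finset.card_biUnion]
    · refine le_trans (Finset.card_le_univ _) (by simp)
    · intro x _ y _ hxy
      rw [Function.onFun, Finset.disjoint_left]
      intro i hi hi'
      simp only [mem_filter, mem_univ, true_and] at hi hi'
      exact hxy (hi.symm.trans hi')
  exact le_trans (hsum (M / 2) (by omega)) (htot _)

/-- The grid cell of the coordinate `i < n`. -/
def cell (G n i : ℕ) : ℕ := i * G / n

theorem cell_mono (G n : ℕ) {i j : ℕ} (h : i ≤ j) : cell G n i ≤ cell G n j :=
  Nat.div_le_div_right (Nat.mul_le_mul_right G h)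

theorem cell_lt {G n i : ℕ} (hG : 0 < G) (h : i < n) : cell G n i < G := by
  unfold cell
  rw [Nat.div_lt_iff_lt_mul (by omega)]
  calc i * G < n * G := Nat.mul_lt_mul_of_pos_right h hG
    _ = G * n := Nat.mul_comm _ _

/-- The boxes of a chain. -/
def box (G n : ℕ) (x y : ℕ → ℕ) (j : ℕ) : Finset (Fin n × Fin n) :=
  univ.filter (fun p => (x j ≤ cell G n p.1 ∧ cell G n p.1 ≤ x (j + 1)) ∧
    (y j ≤ cell G n p.2 ∧ cell G n p.2 ≤ y (j + 1)))

/-- Number of coordinates in a range of cells. -/
theorem card_strip {G n a b : ℕ} (hG : 0 < G) (hn : 0 < n) (hab : a ≤ b) :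
    (((univ : Finset (Fin n)).filter (fun i : Fin n => a ≤ cell G n i ∧ cell G n i ≤ b)).card : ℝ) ≤
      (((b : ℝ) - a) + 1) * ((n : ℝ) / G + 1) := by
  have hG' : (0 : ℝ) < G := by exact_mod_cast hG
  have hn' : (0 : ℝ) < n := by exact_mod_cast hn
  have hab' : (a : ℝ) ≤ b := by exact_mod_cast hab
  have h1 : ((univ : Finset (Fin n)).filter (fun i : Fin n => a ≤ cell G n i ∧ cell G n i ≤ b)).card ≤
      (Finset.Ico ⌈(a : ℝ) * n / G⌉₊ ⌈((b : ℝ) + 1) * n / G⌉₊).card := by
    apply Finset.card_le_card_of_injOn (fun i : Fin n => (i : ℕ))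
    · intro i hi
      simp only [coe_filter, mem_univ, true_and, Set.mem_ofPred_eq] at hi
      obtain ⟨h2, h3⟩ := hi
      unfold cell at h2 h3
      rw [Nat.le_div_iff_mul_le hn] at h2
      have h3' := Nat.lt_succ_of_le h3
      rw [Nat.div_lt_iff_lt_mul hn] at h3'
      simp only [coe_Ico, Set.mem_Ico]
      constructor
      · rw [Nat.ceil_le, div_le_iff₀ hG']
        exact_mod_cast h2
      · rw [Nat.lt_ceil, lt_div_iff₀ hG']
        have : (((i : ℕ) * G : ℕ) : ℝ) < (((b.succ) * n : ℕ) : ℝ) := by exact_mod_cast h3'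
        push_cast at this
        linarith
    · intro i _ j _ h
      exact Fin.ext h
  rw [Nat.card_Ico] at h1
  have h2 : ((⌈((b : ℝ) + 1) * n / G⌉₊ - ⌈(a : ℝ) * n / G⌉₊ : ℕ) : ℝ) ≤
      ((b : ℝ) - a + 1) * (n / G) + 1 := by
    have hle : ⌈(a : ℝ) * n / G⌉₊ ≤ ⌈((b : ℝ) + 1) * n / G⌉₊ := by
      apply Nat.ceil_mono
      gcongr
      linarith
    rw [Nat.cast_sub hle]
    have h3 := Nat.ceil_lt_add_one (show (0 : ℝ) ≤ ((b : ℝ) + 1) * n / G by positivity)
    have h4 := Nat.le_ceil ((a : ℝ) * n / G)
    have h5 : ((b : ℝ) + 1) * n / G - (a : ℝ) * n / G = ((b : ℝ) - a + 1) * (n / G) := by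
      ring
    linarith
  calc _ ≤ ((⌈((b : ℝ) + 1) * n / G⌉₊ - ⌈(a : ℝ) * n / G⌉₊ : ℕ) : ℝ) := by exact_mod_cast h1
    _ ≤ ((b : ℝ) - a + 1) * (n / G) + 1 := h2
    _ ≤ _ := by nlinarith

theorem card_box {G n : ℕ} (hG : 0 < G) (hn : 0 < n) {x y : ℕ → ℕ} (hx : Monotone x)
    (hy : Monotone y) (j : ℕ) :
    ((box G n x y j).card : ℝ) ≤
      (((x (j + 1) : ℝ) - x j) + 1) * (((y (j + 1) : ℝ) - y j) + 1) * ((n : ℝ) / G + 1) ^ 2 := by
  have h1 : box G n x y j = ((univ : Finset (Fin n)).filter
      (fun i : Fin n => x j ≤ cell G n i ∧ cell G n i ≤ x (j + 1))) ×ˢ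
      ((univ : Finset (Fin n)).filter (fun i : Fin n => y j ≤ cell G n i ∧ cell G n i ≤ y (j + 1))) := by
    ext p
    simp [box, mem_product]
  rw [h1, card_product]
  have h2 := card_strip hG hn (hx (Nat.le_succ j))
  have h3 := card_strip hG hn (hy (Nat.le_succ j))
  have h4 : (0 : ℝ) ≤ (x (j + 1) : ℝ) - x j := by
    have : (x j : ℝ) ≤ x (j + 1) := by exact_mod_cast hx (Nat.le_succ j)
    linarith
  have h5 : (0 : ℝ) ≤ (y (j + 1) : ℝ) - y j := by
    have : (y j : ℝ) ≤ y (j + 1) := by exact_mod_cast hy (Nat.le_succ j)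
    linarith
  push_cast
  calc _ ≤ ((((x (j + 1) : ℝ) - x j) + 1) * ((n : ℝ) / G + 1)) *
        ((((y (j + 1) : ℝ) - y j) + 1) * ((n : ℝ) / G + 1)) := by
        apply mul_le_mul h2 h3 (by positivity) (by positivity)
    _ = _ := by ring

/-- From a long subsequence made of small blocks to a grid chain. -/
theorem chain_of_blocks {n m k G M : ℕ} (hG : 0 < G) (π : Perm (Fin n)) (f : Fin m → Fin n)
    (hf : StrictMono f) (g : Fin m → ℕ) (hgM : ∀ i, g i < M)
    (hg : ∀ i j, g i < g j → i < j ∧ π (f i) < π (f j))
    (hk : ∀ v, (univ.filter (fun i => g i = v)).card ≤ k) :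
    ∃ x y : ℕ → ℕ, Monotone x ∧ Monotone y ∧ (∀ j, x j < G) ∧ (∀ j, y j < G) ∧
      ∀ J : Finset ℕ, m ≤ N (((range M).filter (fun j => j ∈ J)).biUnion (box G n x y)) π +
        k * ((range M).filter (fun j => j ∉ J)).card := by
  classical
  refine ⟨fun j => (univ.filter (fun i => g i < j)).sup (fun i => cell G n (f i)),
    fun j => (univ.filter (fun i => g i < j)).sup (fun i => cell G n (π (f i))), ?_, ?_, ?_, ?_, ?_⟩
  · intro a b hab
    apply Finset.sup_mono
    intro i hi
    simp only [mem_filter, mem_univ, true_and] at hi ⊢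
    omega
  · intro a b hab
    apply Finset.sup_mono
    intro i hi
    simp only [mem_filter, mem_univ, true_and] at hi ⊢
    omega
  · intro j
    rw [Finset.sup_lt_iff (by simpa using hG)]
    intro i _
    exact cell_lt hG (f i).2
  · intro j
    rw [Finset.sup_lt_iff (by simpa using hG)]
    intro i _
    exact cell_lt hG (π (f i)).2
  · intro J
    have hsplit : m = (univ.filter (fun i : Fin m => g i ∈ J)).card +
        (univ.filter (fun i : Fin m => g i ∉ J)).card := by
      rw [Finset.card_filter_add_card_filter_not]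
      simp
    have h1 : (univ.filter (fun i : Fin m => g i ∉ J)).card ≤
        k * ((range M).filter (fun j => j ∉ J)).card := by
      calc _ ≤ (((range M).filter (fun j => j ∉ J)).biUnion
            (fun v => univ.filter (fun i : Fin m => g i = v))).card := by
            apply Finset.card_le_card
            intro i hi
            simp only [mem_filter, mem_univ, true_and] at hi
            simp only [mem_biUnion, mem_filter, mem_range, mem_univ, true_and]
            exact ⟨g i, ⟨hgM i, hi⟩, rfl⟩
        _ ≤ ∑ v ∈ (range M).filter (fun j => j ∉ J),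
              (univ.filter (fun i : Fin m => g i = v)).card := Finset.card_biUnion_le
        _ ≤ ∑ v ∈ (range M).filter (fun j => j ∉ J), k := Finset.sum_le_sum (fun v _ => hk v)
        _ = _ := by rw [sum_const, smul_eq_mul, mul_comm]
    have h2 : (univ.filter (fun i : Fin m => g i ∈ J)).card ≤
        N (((range M).filter (fun j => j ∈ J)).biUnion (box G n
          (fun j => (univ.filter (fun i => g i < j)).sup (fun i => cell G n (f i)))
          (fun j => (univ.filter (fun i => g i < j)).sup (fun i => cell G n (π (f i)))))) π := by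
      unfold N
      apply Finset.card_le_card_of_injOn f
      · intro i hi
        simp only [coe_filter, mem_univ, true_and, Set.mem_ofPred_eq] at hi
        simp only [coe_filter, mem_univ, true_and, Set.mem_ofPred_eq, mem_biUnion, mem_filter,
          mem_range]
        refine ⟨g i, ⟨hgM i, hi⟩, ?_⟩
        unfold box
        simp only [mem_filter, mem_univ, true_and]
        refine ⟨⟨?_, ?_⟩, ⟨?_, ?_⟩⟩
        · apply Finset.sup_le
          intro i' hi'
          simp only [mem_filter, mem_univ, true_and] at hi'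
          exact cell_mono G n (hf ((hg _ _ hi').1)).le
        · apply Finset.le_sup (f := fun i => cell G n (f i))
          simp only [mem_filter, mem_univ, true_and]
          omega
        · apply Finset.sup_le
          intro i' hi'
          simp only [mem_filter, mem_univ, true_and] at hi'
          exact cell_mono G n ((hg _ _ hi').2).le
        · apply Finset.le_sup (f := fun i => cell G n (π (f i)))
          simp only [mem_filter, mem_univ, true_and]
          omega
      · exact fun a _ b _ hab => hf.injective hab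
    omega

end Pool.Agent.X143.PC
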