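import Pool.Agent.X143.PC.Defs

/-!
# Counting permutations with many points in a given set of cells
-/

namespace Pool.Agent.X143.PC

open Finset Equiv

theorem card_fix {n : ℕ} (D : Finset (Fin n)) :
    (univ.filter (fun ρ : Perm (Fin n) => ∀ i ∈ D, ρ i = i)).card = (n - D.card).factorial := by
  have e := Equiv.Perm.subtypeEquivSubtypePerm (fun i : Fin n => i ∉ D)
  have h1 := Fintype.card_congr e
  rw [Fintype.card_perm] at h1
  have h2 : Fintype.card {i : Fin n // i ∉ D} = n - D.card := by
    rw [Fintype.card_subtype_compl]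
    simp
  rw [h2] at h1
  rw [h1, Fintype.card_subtype]
  congr 1
  ext ρ
  simp

theorem card_ext {n : ℕ} (S : Finset (Fin n × Fin n)) :
    (univ.filter (fun π : Perm (Fin n) => ∀ p ∈ S, π p.1 = p.2)).card ≤
      (n - S.card).factorial := by
  rcases (univ.filter (fun π : Perm (Fin n) => ∀ p ∈ S, π p.1 = p.2)).eq_empty_or_nonempty with
    h | ⟨π₀, hπ₀⟩
  · rw [h]; simp
  · simp only [mem_filter, mem_univ, true_and] at hπ₀
    have hD : (S.image Prod.fst).card = S.card := by
      apply Finset.card_image_of_injOn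
      intro p hp q hq hpq
      apply Prod.ext hpq
      rw [← hπ₀ p hp, ← hπ₀ q hq]
      exact congrArg π₀ hpq
    rw [← hD, ← card_fix]
    apply Finset.card_le_card_of_injOn (fun π => π₀⁻¹ * π)
    · intro π hπ
      simp only [coe_filter, mem_univ, true_and, Set.mem_ofPred_eq] at hπ
      simp only [coe_filter, mem_univ, true_and, Set.mem_ofPred_eq, mem_image]
      rintro i ⟨p, hp, rfl⟩
      rw [Perm.mul_apply, hπ p hp, ← hπ₀ p hp]
      simp
    · intro a _ b _ hab
      exact mul_left_cancel hab

/-- The number of points of `π` in the set `U` of cells. -/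
def N {n : ℕ} (U : Finset (Fin n × Fin n)) (π : Perm (Fin n)) : ℕ :=
  (univ.filter (fun i => (i, π i) ∈ U)).card

theorem N_eq {n : ℕ} (U : Finset (Fin n × Fin n)) (π : Perm (Fin n)) :
    (U.filter (fun p => π p.1 = p.2)).card = N U π := by
  unfold N
  symm
  apply Finset.card_bij (fun i _ => (i, π i))
  · intro i hi
    simpa using hi
  · intro i _ j _ h
    exact (Prod.ext_iff.1 h).1
  · rintro ⟨i, j⟩ h
    simp only [mem_filter] at h
    refine ⟨i, ?_, ?_⟩
    · simp only [mem_filter, mem_univ, true_and]
      rw [h.2]; exact h.1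
    · rw [h.2]

theorem card_many {n : ℕ} (U : Finset (Fin n × Fin n)) (m r : ℕ) :
    (univ.filter (fun π : Perm (Fin n) => m ≤ N U π)).card * (m.choose r) ≤
      (U.card.choose r) * (n - r).factorial := by
  classical
  calc (univ.filter (fun π : Perm (Fin n) => m ≤ N U π)).card * (m.choose r)
      = ∑ _π ∈ univ.filter (fun π : Perm (Fin n) => m ≤ N U π), m.choose r := by
        rw [sum_const, smul_eq_mul]
    _ ≤ ∑ π ∈ univ.filter (fun π : Perm (Fin n) => m ≤ N U π),
          (powersetCard r (U.filter (fun p => π p.1 = p.2))).card := by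
        apply Finset.sum_le_sum
        intro π hπ
        simp only [mem_filter, mem_univ, true_and] at hπ
        rw [card_powersetCard, N_eq]
        exact Nat.choose_le_choose r hπ
    _ ≤ ∑ π : Perm (Fin n), (powersetCard r (U.filter (fun p => π p.1 = p.2))).card :=
        Finset.sum_le_univ_sum_of_nonneg (fun _ => Nat.zero_le _)
    _ = ∑ π : Perm (Fin n), ∑ S ∈ powersetCard r U, if (∀ p ∈ S, π p.1 = p.2) then 1 else 0 := by
        apply Finset.sum_congr rfl
        intro π _
        rw [← Finset.sum_filter, Finset.sum_const, smul_eq_mul, mul_one]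
        congr 1
        ext S
        simp only [mem_powersetCard, mem_filter]
        constructor
        · rintro ⟨h1, h2⟩
          refine ⟨⟨fun p hp => (mem_filter.1 (h1 hp)).1, h2⟩, fun p hp => (mem_filter.1 (h1 hp)).2⟩
        · rintro ⟨⟨h1, h2⟩, h3⟩
          exact ⟨fun p hp => mem_filter.2 ⟨h1 hp, h3 p hp⟩, h2⟩
    _ = ∑ S ∈ powersetCard r U, ∑ π : Perm (Fin n), if (∀ p ∈ S, π p.1 = p.2) then 1 else 0 :=
        Finset.sum_comm
    _ ≤ ∑ S ∈ powersetCard r U, (n - r).factorial := by
        apply Finset.sum_le_sum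
        intro S hS
        rw [← Finset.sum_filter, Finset.sum_const, smul_eq_mul, mul_one]
        have := card_ext S
        rw [(mem_powersetCard.1 hS).2] at this
        exact this
    _ = (U.card.choose r) * (n - r).factorial := by
        rw [sum_const, smul_eq_mul, card_powersetCard]

theorem card_many_real {n : ℕ} (U : Finset (Fin n × Fin n)) (m r : ℕ) (hrm : r < m)
    (hrn : r < n) (q : ℝ) (hU : (U.card : ℝ) ≤ q * (((m : ℝ) - r) * ((n : ℝ) - r))) :
    ((univ.filter (fun π : Perm (Fin n) => m ≤ N U π)).card : ℝ) ≤ q ^ r * n.factorial := by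
  set b := (univ.filter (fun π : Perm (Fin n) => m ≤ N U π)).card with hb
  have h1 : b * (m.choose r) ≤ (U.card.choose r) * (n - r).factorial := card_many U m r
  have h2 : b * (m.descFactorial r) * (n.descFactorial r) ≤ U.card ^ r * n.factorial := by
    calc b * (m.descFactorial r) * (n.descFactorial r)
        = (b * m.choose r) * (r.factorial * n.descFactorial r) := by
          rw [Nat.descFactorial_eq_factorial_mul_choose m r]; ring
      _ ≤ ((U.card.choose r) * (n - r).factorial) * (r.factorial * n.descFactorial r) :=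
          Nat.mul_le_mul_right _ h1
      _ = (r.factorial * U.card.choose r) * ((n - r).factorial * n.descFactorial r) := by ring
      _ = U.card.descFactorial r * n.factorial := by
          rw [← Nat.descFactorial_eq_factorial_mul_choose,
            Nat.factorial_mul_descFactorial hrn.le]
      _ ≤ U.card ^ r * n.factorial :=
          Nat.mul_le_mul_right _ (Nat.descFactorial_le_pow _ _)
  have hm : (0 : ℝ) < (m : ℝ) - r := by
    have : (r : ℝ) < m := by exact_mod_cast hrm
    linarith
  have hn : (0 : ℝ) < (n : ℝ) - r := by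
    have : (r : ℝ) < n := by exact_mod_cast hrn
    linarith
  have h3 : ((m : ℝ) - r) ^ r ≤ (m.descFactorial r : ℝ) := by
    have := Nat.pow_sub_le_descFactorial m r
    calc ((m : ℝ) - r) ^ r ≤ ((m + 1 - r : ℕ) : ℝ) ^ r := by
          gcongr
          rw [Nat.cast_sub (by omega)]
          push_cast; linarith
      _ ≤ _ := by exact_mod_cast this
  have h4 : ((n : ℝ) - r) ^ r ≤ (n.descFactorial r : ℝ) := by
    have := Nat.pow_sub_le_descFactorial n r
    calc ((n : ℝ) - r) ^ r ≤ ((n + 1 - r : ℕ) : ℝ) ^ r := by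
          gcongr
          rw [Nat.cast_sub (by omega)]
          push_cast; linarith
      _ ≤ _ := by exact_mod_cast this
  have h5 : (b : ℝ) * (((m : ℝ) - r) * ((n : ℝ) - r)) ^ r ≤
      (q ^ r * n.factorial) * (((m : ℝ) - r) * ((n : ℝ) - r)) ^ r := by
    calc (b : ℝ) * (((m : ℝ) - r) * ((n : ℝ) - r)) ^ r
        = b * ((m : ℝ) - r) ^ r * ((n : ℝ) - r) ^ r := by rw [mul_pow]; ring
      _ ≤ b * (m.descFactorial r : ℝ) * (n.descFactorial r : ℝ) := by gcongr
      _ ≤ (U.card : ℝ) ^ r * n.factorial := by exact_mod_cast h2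
      _ ≤ (q * (((m : ℝ) - r) * ((n : ℝ) - r))) ^ r * n.factorial := by gcongr
      _ = _ := by rw [mul_pow]; ring
  exact le_of_mul_le_mul_right h5 (by positivity)

end Pool.Agent.X143.PC
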