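import Mathlib

/-!
# Longest pattern-class subsequences: definitions
-/

namespace Pool.Agent.X143.PC

open Filter Finset

/-- A permutation of some finite length `n` (a bijection of `Fin n`). -/
abbrev P : Type := Σ n : ℕ, Equiv.Perm (Fin n)

/-- `Contains σ π`: some subsequence of `π` (positions `f 0 < f 1 < ...`) has pattern `σ`. -/
def Contains (σ π : P) : Prop :=
  ∃ f : Fin σ.1 → Fin π.1, StrictMono f ∧
    ∀ i j, σ.2 i < σ.2 j ↔ π.2 (f i) < π.2 (f j)

/-- The class `Av(B)` of all permutations that contain no element of `B`. -/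
def Av (B : Set P) : Set P := {π | ∀ β ∈ B, ¬ Contains β π}

/-- `L A π` is the maximum size of a subsequence of `π` with pattern in `A`. -/
noncomputable def L (A : Set P) {n : ℕ} (π : Equiv.Perm (Fin n)) : ℕ :=
  sSup {k : ℕ | ∃ σ : Equiv.Perm (Fin k), (⟨k, σ⟩ : P) ∈ A ∧ Contains ⟨k, σ⟩ ⟨n, π⟩}

/-- The expectation of `L A` for a uniform permutation of length `n`. -/
noncomputable def EL (A : Set P) (n : ℕ) : ℝ :=
  (∑ π : Equiv.Perm (Fin n), (L A π : ℝ)) / (n.factorial : ℝ)

/-- The number of permutations of length `n` in `A`. -/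
noncomputable def cnt (A : Set P) (n : ℕ) : ℕ :=
  Nat.card {π : Equiv.Perm (Fin n) // (⟨n, π⟩ : P) ∈ A}

/-- The upper growth rate `s_A = limsup (#(A ∩ S_n))^(1/n)`. -/
noncomputable def sA (A : Set P) : ENNReal :=
  limsup (fun n : ℕ => ((cnt A n : ℕ) : ENNReal) ^ (1 / (n : ℝ))) atTop

/-- The constant `c_A` with `2 √c_A = limsup n^(-1/2) E[L_A(Π_n)]`. -/
noncomputable def cA (A : Set P) : ENNReal :=
  (limsup (fun n : ℕ => ENNReal.ofReal (EL A n / Real.sqrt n)) atTop) ^ 2 / 4

/-- Direct sums of blocks of size at most `k`: there is a block index `g`, nondecreasing both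
in the position and in the value, such that every block has at most `k` entries. -/
def blk (k : ℕ) : Set P :=
  {π | ∃ g : Fin π.1 → ℕ, (∀ i j, g i < g j → i < j ∧ π.2 i < π.2 j) ∧
    ∀ v, (univ.filter (fun i => g i = v)).card ≤ k}

theorem contains_refl (π : P) : Contains π π := ⟨id, strictMono_id, fun _ _ => Iff.rfl⟩

theorem blk_hered {k : ℕ} {σ π : P} (h : Contains σ π) (hπ : π ∈ blk k) : σ ∈ blk k := by
  obtain ⟨f, hf, hfσ⟩ := h
  obtain ⟨g, hg, hk⟩ := hπ
  refine ⟨fun i => g (f i), ?_, ?_⟩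
  · intro i j hij
    obtain ⟨h1, h2⟩ := hg _ _ hij
    exact ⟨hf.lt_iff_lt.1 h1, (hfσ i j).2 h2⟩
  · intro v
    refine le_trans ?_ (hk v)
    apply Finset.card_le_card_of_injOn f
    · intro i hi
      simpa using hi
    · exact fun a _ b _ hab => hf.injective hab

theorem Av_compl (k : ℕ) : Av {β | β ∉ blk k} = blk k := by
  ext π
  constructor
  · intro h
    by_contra hπ
    exact h π hπ (contains_refl π)
  · intro h β hβ hc
    exact hβ (blk_hered hc h)

theorem compl_nonempty (k : ℕ) : ({β | β ∉ blk k} : Set P).Nonempty := by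
  refine ⟨⟨k + 1, Fin.revPerm⟩, ?_⟩
  rintro ⟨g, hg, hk⟩
  have hconst : ∀ i : Fin (k + 1), g i = g 0 := by
    intro i
    by_contra hne
    rcases lt_or_gt_of_ne hne with h | h
    · have := (hg _ _ h).1
      exact absurd this (Fin.not_lt_zero i)
    · have h1 := (hg _ _ h)
      have h2 := h1.2
      simp only [Fin.revPerm_apply] at h2
      rw [Fin.rev_lt_rev] at h2
      exact absurd h2 (Fin.not_lt_zero i)
  have := hk (g 0)
  rw [Finset.filter_true_of_mem (fun i _ => hconst i)] at this
  simp at this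

end Pool.Agent.X143.PC
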