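import Pool.Agent.X143.PC.Defs

/-!
# Lower bound for the growth rate of the class of direct sums of small blocks
-/

namespace Pool.Agent.X143.PC

open Filter Finset

/-- The direct sum of `N` permutations of length `k`. -/
def dsum {N k : ℕ} (σ : Fin N → Equiv.Perm (Fin k)) : Equiv.Perm (Fin (N * k)) :=
  (finProdFinEquiv (m := N) (n := k)).permCongr (Equiv.prodCongrRight σ)

theorem dsum_apply {N k : ℕ} (σ : Fin N → Equiv.Perm (Fin k)) (a : Fin N) (b : Fin k) :
    dsum σ (finProdFinEquiv (a, b)) = finProdFinEquiv (a, σ a b) := by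
  simp [dsum, Equiv.permCongr_apply]

theorem fpf_lt {N k : ℕ} {a a' : Fin N} {b b' : Fin k} (h : a < a') :
    finProdFinEquiv (a, b) < finProdFinEquiv (a', b') := by
  rw [Fin.lt_def]
  simp only [finProdFinEquiv_apply_val]
  have h1 : (a : ℕ) + 1 ≤ a' := h
  have h2 := b.2
  calc (b : ℕ) + k * a < k + k * a := by omega
    _ = k * (a + 1) := by ring
    _ ≤ k * a' := Nat.mul_le_mul_left k h1
    _ ≤ b' + k * a' := Nat.le_add_left _ _

theorem dsum_mem {N k : ℕ} (σ : Fin N → Equiv.Perm (Fin k)) :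
    (⟨N * k, dsum σ⟩ : P) ∈ blk k := by
  refine ⟨fun i => ((finProdFinEquiv.symm i).1 : ℕ), ?_, ?_⟩
  · intro i j
    obtain ⟨⟨a, b⟩, rfl⟩ := finProdFinEquiv.surjective i
    obtain ⟨⟨a', b'⟩, rfl⟩ := finProdFinEquiv.surjective j
    intro h
    simp only [Equiv.symm_apply_apply] at h
    have h' : a < a' := h
    refine ⟨fpf_lt h', ?_⟩
    show dsum σ _ < dsum σ _
    rw [dsum_apply, dsum_apply]
    exact fpf_lt h'
  · intro v
    calc _ ≤ (univ : Finset (Fin k)).card := by
          apply Finset.card_le_card_of_injOn (fun i => (finProdFinEquiv.symm i).2)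
          · intro i _
            simp
          · intro i hi j hj hij
            simp only [coe_filter, mem_univ, true_and, Set.mem_ofPred_eq] at hi hj
            have h1 : (finProdFinEquiv.symm i).1 = (finProdFinEquiv.symm j).1 := by
              apply Fin.ext
              rw [hi, hj]
            have : finProdFinEquiv.symm i = finProdFinEquiv.symm j := Prod.ext h1 hij
            exact finProdFinEquiv.symm.injective this
      _ = k := by simp

theorem dsum_inj {N k : ℕ} : Function.Injective (dsum : (Fin N → Equiv.Perm (Fin k)) → _) := by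
  intro σ τ h
  funext a
  ext b
  have := congrArg (fun π : Equiv.Perm (Fin (N * k)) => π (finProdFinEquiv (a, b))) h
  simp only [dsum_apply] at this
  have := finProdFinEquiv.injective this
  have h2 := (Prod.ext_iff.1 this).2
  simp only at h2
  rw [h2]

theorem cnt_ge (N k : ℕ) : k.factorial ^ N ≤ cnt (blk k) (N * k) := by
  have h1 : Nat.card (Fin N → Equiv.Perm (Fin k)) = k.factorial ^ N := by
    simp [Nat.card_eq_fintype_card, Fintype.card_perm]
  rw [← h1]
  unfold cnt
  apply Nat.card_le_card_of_injective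
    (fun σ : Fin N → Equiv.Perm (Fin k) => (⟨dsum σ, dsum_mem σ⟩ :
      {π : Equiv.Perm (Fin (N * k)) // (⟨N * k, π⟩ : P) ∈ blk k}))
  intro σ τ h
  exact dsum_inj (Subtype.ext_iff.1 h)

theorem fact_lower {k : ℕ} (hk : 0 < k) :
    ENNReal.ofReal ((k : ℝ) * (367 / 1000)) ≤ ((k.factorial : ℕ) : ENNReal) ^ (1 / (k : ℝ)) := by
  have hk' : (0 : ℝ) < k := by exact_mod_cast hk
  have h1 : ((k : ℝ)) ^ k / (k.factorial : ℝ) ≤ Real.exp k :=
    Real.pow_div_factorial_le_exp (k : ℝ) hk'.le k
  have hf : (0 : ℝ) < (k.factorial : ℝ) := by exact_mod_cast Nat.factorial_pos k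
  have h2 : ((k : ℝ) * (367 / 1000)) ^ k ≤ (k.factorial : ℝ) := by
    have he : Real.exp 1 * (367 / 1000) ≤ 1 := by
      have := Real.exp_one_lt_d9
      nlinarith
    have h3 : Real.exp k * (367 / 1000 : ℝ) ^ k ≤ 1 := by
      have : Real.exp (k : ℝ) = (Real.exp 1) ^ k := by
        rw [← Real.exp_nat_mul, mul_one]
      rw [this, ← mul_pow]
      exact pow_le_one₀ (by positivity) he
    rw [div_le_iff₀ hf] at h1
    rw [mul_pow]
    calc (k : ℝ) ^ k * (367 / 1000 : ℝ) ^ k ≤ (Real.exp k * k.factorial) * (367 / 1000 : ℝ) ^ k := by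
          gcongr
      _ = (Real.exp k * (367 / 1000 : ℝ) ^ k) * k.factorial := by ring
      _ ≤ 1 * k.factorial := by gcongr
      _ = _ := one_mul _
  rw [one_div, ENNReal.le_rpow_inv_iff hk']
  rw [ENNReal.ofReal_rpow_of_nonneg (by positivity) hk'.le]
  rw [show ((k.factorial : ℕ) : ENNReal) = ENNReal.ofReal (k.factorial : ℝ) by
    rw [ENNReal.ofReal_natCast]]
  apply ENNReal.ofReal_le_ofReal
  rw [Real.rpow_natCast]
  exact h2

theorem sA_ge {k : ℕ} (hk : 0 < k) :
    ENNReal.ofReal ((k : ℝ) * (367 / 1000)) ≤ sA (blk k) := by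
  refine le_trans (fact_lower hk) ?_
  unfold sA
  apply le_limsup_of_frequently_le'
  rw [frequently_atTop]
  intro a
  refine ⟨(a + 1) * k, ?_, ?_⟩
  · nlinarith
  · have h1 := cnt_ge (a + 1) k
    have hk' : (0 : ℝ) < k := by exact_mod_cast hk
    have ha : (0 : ℝ) < ((a + 1 : ℕ) : ℝ) := by positivity
    calc ((k.factorial : ℕ) : ENNReal) ^ (1 / (k : ℝ))
        = ((((k.factorial : ℕ) : ENNReal) ^ ((a + 1 : ℕ) : ℝ))) ^ (1 / (((a + 1) * k : ℕ) : ℝ)) := by
          rw [← ENNReal.rpow_mul]
          congr 1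
          push_cast
          push_cast at ha
          field_simp
      _ ≤ ((cnt (blk k) ((a + 1) * k) : ℕ) : ENNReal) ^ (1 / (((a + 1) * k : ℕ) : ℝ)) := by
          apply ENNReal.rpow_le_rpow _ (by positivity)
          rw [ENNReal.rpow_natCast]
          exact_mod_cast h1

end Pool.Agent.X143.PC
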