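import Pool.Agent.X143.PC.Upper
import Pool.Agent.X143.PC.Low

/-!
# The constant of the class of direct sums of small blocks
-/

namespace Pool.Agent.X143.PC

open Finset Equiv Filter

theorem EL_le {A : Set P} (n m : ℕ) :
    EL A n ≤ m + n * (((univ.filter (fun π : Perm (Fin n) => m ≤ L A π)).card : ℝ) /
      n.factorial) := by
  classical
  have hf : (0 : ℝ) < (n.factorial : ℝ) := by exact_mod_cast Nat.factorial_pos n
  unfold EL
  rw [div_le_iff₀ hf]
  calc ∑ π : Perm (Fin n), (L A π : ℝ) ≤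
      ∑ π : Perm (Fin n), ((m : ℝ) + if m ≤ L A π then (n : ℝ) else 0) := by
        apply Finset.sum_le_sum
        intro π _
        split_ifs with h
        · have : (L A π : ℝ) ≤ n := by exact_mod_cast L_le π
          have : (0 : ℝ) ≤ m := by positivity
          linarith
        · have : (L A π : ℝ) ≤ m := by exact_mod_cast (not_le.1 h).le
          linarith
    _ = n.factorial * (m : ℝ) +
        ((univ.filter (fun π : Perm (Fin n) => m ≤ L A π)).card : ℝ) * n := by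
        rw [Finset.sum_add_distrib, Finset.sum_const, ← Finset.sum_filter, Finset.sum_const,
          nsmul_eq_mul, nsmul_eq_mul, Finset.card_univ, Fintype.card_perm, Fintype.card_fin]
    _ = _ := by field_simp

theorem theta_le {a : ℕ} (ha : 100 ≤ a) (V : ℕ) :
    (4 : ℝ) ^ (103 * V) * (9 / 10 : ℝ) ^ (5 * a ^ 2 * V) ≤ (1 / 2 : ℝ) ^ V := by
  have h1 : (4 : ℝ) ^ 103 * (9 / 10 : ℝ) ^ (5 * a ^ 2) ≤ 1 / 2 := by
    have ha2 : 100 ^ 2 ≤ a ^ 2 := Nat.pow_le_pow_left ha 2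
    calc (4 : ℝ) ^ 103 * (9 / 10 : ℝ) ^ (5 * a ^ 2) ≤ (4 : ℝ) ^ 103 * (9 / 10 : ℝ) ^ (7 * 207) := by
          apply mul_le_mul_of_nonneg_left _ (by positivity)
          apply pow_le_pow_of_le_one (by norm_num) (by norm_num)
          omega
      _ = (4 : ℝ) ^ 103 * ((9 / 10 : ℝ) ^ 7) ^ 207 := by rw [pow_mul]
      _ ≤ (4 : ℝ) ^ 103 * (1 / 2 : ℝ) ^ 207 := by
          apply mul_le_mul_of_nonneg_left _ (by positivity)
          apply pow_le_pow_left₀ (by norm_num)
          norm_num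
      _ ≤ 1 / 2 := by norm_num
  calc (4 : ℝ) ^ (103 * V) * (9 / 10 : ℝ) ^ (5 * a ^ 2 * V)
      = ((4 : ℝ) ^ 103 * (9 / 10 : ℝ) ^ (5 * a ^ 2)) ^ V := by
        rw [mul_pow, ← pow_mul, ← pow_mul]
    _ ≤ _ := by
        apply pow_le_pow_left₀ (by positivity) h1

/-- The size of the grid. -/
noncomputable def gs (a n : ℕ) : ℕ := ⌈Real.sqrt n / (10 * a)⌉₊

theorem EL_bound {a n : ℕ} (ha : 100 ≤ a) (hn : (10 * a : ℝ) * 1000 ≤ Real.sqrt n) :
    EL (blk (100 * a ^ 2)) n / Real.sqrt n ≤ 12 * a + 120 * (a : ℝ) ^ 2 / Real.sqrt n +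
      10 * a * ((gs a n : ℝ) * (1 / 2 : ℝ) ^ (gs a n)) := by
  have ha0 : (0 : ℝ) < a := by
    have : 0 < a := by omega
    exact_mod_cast this
  have hsq : (Real.sqrt n) ^ 2 = n := Real.sq_sqrt (by positivity)
  set t := Real.sqrt n with ht
  have ht0 : 0 < t := lt_of_lt_of_le (by positivity) hn
  set V := gs a n with hV
  have hV1 : t / (10 * a) ≤ V := Nat.le_ceil _
  have hV2 : (V : ℝ) < t / (10 * a) + 1 := Nat.ceil_lt_add_one (by positivity)
  have hV3 : t ≤ 10 * a * V := by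
    rw [div_le_iff₀ (by positivity)] at hV1
    linarith
  have hV4 : 10 * a * ((V : ℝ) - 1) < t := by
    have h : (V : ℝ) - 1 < t / (10 * a) := by linarith
    rw [lt_div_iff₀ (by positivity)] at h
    linarith
  have hVN : 1000 ≤ V := by
    have h : (1000 : ℝ) ≤ t / (10 * a) := by
      rw [le_div_iff₀ (by positivity)]
      linarith
    have : (1000 : ℝ) ≤ V := h.trans hV1
    exact_mod_cast this
  have hn1 : n ≤ 100 * a ^ 2 * V ^ 2 := by
    have : (n : ℝ) ≤ ((100 * a ^ 2 * V ^ 2 : ℕ) : ℝ) := by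
      push_cast
      rw [← hsq]
      calc t ^ 2 ≤ (10 * a * V) ^ 2 := by gcongr
        _ = _ := by ring
    exact_mod_cast this
  have hn2 : 100 * a ^ 2 * (V - 1) ^ 2 ≤ n := by
    have : ((100 * a ^ 2 * (V - 1) ^ 2 : ℕ) : ℝ) ≤ (n : ℝ) := by
      push_cast
      rw [Nat.cast_sub (by omega), ← hsq]
      have h0 : (0 : ℝ) ≤ 10 * a * ((V : ℝ) - 1) := by
        have : (1 : ℝ) ≤ V := by exact_mod_cast (by omega : 1 ≤ V)
        have : (0 : ℝ) ≤ (V : ℝ) - 1 := by linarith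
        positivity
      calc (100 * (a : ℝ) ^ 2 * ((V : ℝ) - ((1 : ℕ) : ℝ)) ^ 2) = (10 * a * ((V : ℝ) - 1)) ^ 2 := by
            push_cast; ring
        _ ≤ t ^ 2 := by gcongr
    exact_mod_cast this
  have hf : (0 : ℝ) < (n.factorial : ℝ) := by exact_mod_cast Nat.factorial_pos n
  have h1 := card_long (a := a) (by omega) hVN hn1 hn2
  have h2 : ((univ.filter (fun π : Perm (Fin n) =>
      120 * a ^ 2 * V ≤ L (blk (100 * a ^ 2)) π)).card : ℝ) / n.factorial ≤ (1 / 2 : ℝ) ^ V := by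
    rw [div_le_iff₀ hf]
    refine h1.trans ?_
    rw [← mul_assoc]
    exact mul_le_mul_of_nonneg_right (theta_le ha V) hf.le
  have h3 := EL_le (A := blk (100 * a ^ 2)) n (120 * a ^ 2 * V)
  have h4 : EL (blk (100 * a ^ 2)) n ≤ 120 * (a : ℝ) ^ 2 * V + t ^ 2 * (1 / 2 : ℝ) ^ V := by
    refine h3.trans ?_
    push_cast
    rw [hsq]
    gcongr
  calc EL (blk (100 * a ^ 2)) n / t ≤ (120 * (a : ℝ) ^ 2 * V + t ^ 2 * (1 / 2 : ℝ) ^ V) / t := by
        gcongr
    _ = 120 * (a : ℝ) ^ 2 * V / t + t * (1 / 2 : ℝ) ^ V := by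
        field_simp
    _ ≤ (12 * a + 120 * (a : ℝ) ^ 2 / t) + (10 * a * V) * (1 / 2 : ℝ) ^ V := by
        apply add_le_add
        · rw [div_le_iff₀ ht0]
          have : (12 * (a : ℝ) + 120 * (a : ℝ) ^ 2 / t) * t = 12 * a * t + 120 * (a : ℝ) ^ 2 := by
            field_simp
          rw [this]
          have h5 : 12 * (a : ℝ) * (10 * a * ((V : ℝ) - 1)) ≤ 12 * (a : ℝ) * t := by gcongr
          nlinarith
        · gcongr
    _ = _ := by ring

theorem gs_tendsto {a : ℕ} (ha : 100 ≤ a) : Tendsto (gs a) atTop atTop := by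
  have ha0 : (0 : ℝ) < a := by
    have : 0 < a := by omega
    exact_mod_cast this
  apply tendsto_nat_ceil_atTop.comp
  apply Tendsto.atTop_div_const (by positivity)
  exact Real.tendsto_sqrt_atTop.comp tendsto_natCast_atTop_atTop

theorem cA_le {a : ℕ} (ha : 100 ≤ a) :
    cA (blk (100 * a ^ 2)) ≤ ENNReal.ofReal (36 * (a : ℝ) ^ 2) := by
  have ha0 : (0 : ℝ) < a := by
    have : 0 < a := by omega
    exact_mod_cast this
  have hsq : Tendsto (fun n : ℕ => Real.sqrt n) atTop atTop :=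
    Real.tendsto_sqrt_atTop.comp tendsto_natCast_atTop_atTop
  have hlim : Tendsto (fun n : ℕ => 12 * (a : ℝ) + 120 * (a : ℝ) ^ 2 / Real.sqrt n +
      10 * a * ((gs a n : ℝ) * (1 / 2 : ℝ) ^ (gs a n))) atTop (nhds (12 * (a : ℝ))) := by
    have h1 : Tendsto (fun n : ℕ => 120 * (a : ℝ) ^ 2 / Real.sqrt n) atTop (nhds 0) :=
      Tendsto.const_div_atTop hsq _
    have h2 : Tendsto (fun n : ℕ => ((gs a n : ℝ) * (1 / 2 : ℝ) ^ (gs a n))) atTop (nhds 0) := by
      have := tendsto_self_mul_const_pow_of_lt_one (r := (1 / 2 : ℝ)) (by norm_num) (by norm_num)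
      exact this.comp (gs_tendsto ha)
    have h3 := (tendsto_const_nhds (x := 12 * (a : ℝ)) (f := (atTop : Filter ℕ))).add h1
    have h4 := h3.add (h2.const_mul (10 * (a : ℝ)))
    simpa using h4
  have hls : limsup (fun n : ℕ => ENNReal.ofReal (EL (blk (100 * a ^ 2)) n / Real.sqrt n)) atTop ≤
      ENNReal.ofReal (12 * a) := by
    have h5 : Tendsto (fun n : ℕ => ENNReal.ofReal (12 * (a : ℝ) + 120 * (a : ℝ) ^ 2 / Real.sqrt n +
      10 * a * ((gs a n : ℝ) * (1 / 2 : ℝ) ^ (gs a n)))) atTop (nhds (ENNReal.ofReal (12 * a))) :=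
      ENNReal.tendsto_ofReal hlim
    rw [← h5.limsup_eq]
    apply limsup_le_limsup
    · filter_upwards [hsq.eventually_ge_atTop ((10 * a : ℝ) * 1000)] with n hn
      exact ENNReal.ofReal_le_ofReal (EL_bound ha hn)
    · isBoundedDefault
    · isBoundedDefault
  unfold cA
  calc _ ≤ (ENNReal.ofReal (12 * a)) ^ 2 / 4 := by gcongr
    _ = ENNReal.ofReal (36 * (a : ℝ) ^ 2) := by
        rw [← ENNReal.ofReal_pow (by positivity)]
        rw [show (4 : ENNReal) = ENNReal.ofReal 4 by simp]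
        rw [← ENNReal.ofReal_div_of_pos (by norm_num)]
        congr 1
        ring

theorem cA_lt_sA {a : ℕ} (ha : 100 ≤ a) :
    cA (blk (100 * a ^ 2)) < sA (blk (100 * a ^ 2)) := by
  have ha0 : 0 < a := by omega
  have ha0' : (0 : ℝ) < a := by exact_mod_cast ha0
  refine lt_of_le_of_lt (cA_le ha) (lt_of_lt_of_le ?_ (sA_ge (k := 100 * a ^ 2) (by positivity)))
  rw [ENNReal.ofReal_lt_ofReal_iff (by positivity)]
  push_cast
  have : 0 < (a : ℝ) ^ 2 := by positivity
  nlinarith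

end Pool.Agent.X143.PC
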