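import Pool.Agent.X143.PC.Chain

/-!
# Upper bound for the expected longest subsequence made of small blocks
-/

namespace Pool.Agent.X143.PC

open Finset Equiv

theorem card_monotone (M G : ℕ) :
    ((univ : Finset (Fin (M + 1) → Fin G)).filter (fun c => Monotone c)).card ≤ 2 ^ (G + M) := by
  classical
  have h : ((univ : Finset (Fin (M + 1) → Fin G)).filter (fun c => Monotone c)).card ≤
      (range (G + M)).powerset.card := by
    apply Finset.card_le_card_of_injOn
      (fun c => univ.image (fun i : Fin (M + 1) => (c i : ℕ) + (i : ℕ)))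
    · intro c _
      simp only [coe_powerset, Set.mem_preimage, Set.mem_powerset_iff, coe_image, coe_univ,
        Set.image_univ, coe_range]
      rintro _ ⟨i, rfl⟩
      have h1 := (c i).2
      have h2 := i.2
      simp only [Set.mem_Iio]
      omega
    · intro c hc d hd hcd
      simp only [coe_filter, mem_univ, true_and, Set.mem_ofPred_eq] at hc hd
      have hs : ∀ e : Fin (M + 1) → Fin G, Monotone e →
          StrictMono (fun i : Fin (M + 1) => (e i : ℕ) + (i : ℕ)) := by
        intro e he i j hij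
        have h1 : (e i : ℕ) ≤ e j := he hij.le
        have h2 : (i : ℕ) < j := hij
        show (e i : ℕ) + i < (e j : ℕ) + j
        omega
      have hr : Set.range (fun i : Fin (M + 1) => (c i : ℕ) + (i : ℕ)) =
          Set.range (fun i : Fin (M + 1) => (d i : ℕ) + (i : ℕ)) := by
        have := congrArg (fun s : Finset ℕ => (s : Set ℕ)) hcd
        simpa [Set.image_univ] using this
      have := ((hs c hc).range_inj (hs d hd)).1 hr
      funext i
      have h3 := congrFun this i
      apply Fin.ext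
      have h4 : (c i : ℕ) + (i : ℕ) = (d i : ℕ) + (i : ℕ) := h3
      omega
  rw [card_powerset, card_range] at h
  exact h

/-- The union of the boxes with index in `J`. -/
def UU (G n M : ℕ) (x y : ℕ → ℕ) (J : Finset ℕ) : Finset (Fin n × Fin n) :=
  ((range M).filter (fun j => j ∈ J)).biUnion (box G n x y)

theorem area {G n M : ℕ} (hG : 0 < G) (hn : 0 < n) {x y : ℕ → ℕ} (hx : Monotone x)
    (hy : Monotone y) (hxG : ∀ j, x j < G) (hyG : ∀ j, y j < G) (s : ℝ) (hs : 0 ≤ s) :
    ∃ J : Finset ℕ, ((UU G n M x y J).card : ℝ) + s ^ 2 * ((range M).filter (fun j => j ∉ J)).card ≤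
      s * ((n : ℝ) / G + 1) * ((G : ℝ) + M) := by
  classical
  set W : ℝ := (n : ℝ) / G + 1 with hW
  have hW0 : 0 ≤ W := by positivity
  set p : ℕ → ℝ := fun j => ((x (j + 1) : ℝ) - x j) + 1 with hp
  set q : ℕ → ℝ := fun j => ((y (j + 1) : ℝ) - y j) + 1 with hq
  have hp0 : ∀ j, 0 ≤ p j := by
    intro j
    have : (x j : ℝ) ≤ x (j + 1) := by exact_mod_cast hx (Nat.le_succ j)
    simp only [hp]; linarith
  have hq0 : ∀ j, 0 ≤ q j := by
    intro j
    have : (y j : ℝ) ≤ y (j + 1) := by exact_mod_cast hy (Nat.le_succ j)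
    simp only [hq]; linarith
  refine ⟨(range M).filter (fun j => p j * q j * W ^ 2 ≤ s ^ 2), ?_⟩
  set J := (range M).filter (fun j => p j * q j * W ^ 2 ≤ s ^ 2) with hJ
  have key1 : ∀ j, p j * q j * W ^ 2 ≤ (W * ((p j + q j) / 2)) ^ 2 := by
    intro j
    have : 0 ≤ (p j - q j) ^ 2 * W ^ 2 := by positivity
    nlinarith
  have hz0 : ∀ j, 0 ≤ W * ((p j + q j) / 2) := by
    intro j
    have := hp0 j; have := hq0 j
    positivity
  have hin : ∀ j, p j * q j * W ^ 2 ≤ s ^ 2 → p j * q j * W ^ 2 ≤ s * (W * ((p j + q j) / 2)) := by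
    intro j h
    rcases le_total (W * ((p j + q j) / 2)) s with h1 | h1
    · calc _ ≤ (W * ((p j + q j) / 2)) ^ 2 := key1 j
        _ = (W * ((p j + q j) / 2)) * (W * ((p j + q j) / 2)) := by ring
        _ ≤ _ := mul_le_mul_of_nonneg_right h1 (hz0 j)
    · calc _ ≤ s ^ 2 := h
        _ = s * s := by ring
        _ ≤ _ := mul_le_mul_of_nonneg_left h1 hs
  have hout : ∀ j, ¬ (p j * q j * W ^ 2 ≤ s ^ 2) → s ^ 2 ≤ s * (W * ((p j + q j) / 2)) := by
    intro j h
    have h1 : s ^ 2 ≤ (W * ((p j + q j) / 2)) ^ 2 := (not_le.1 h).le.trans (key1 j)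
    have h2 : s ≤ W * ((p j + q j) / 2) := by
      exact abs_le_of_sq_le_sq' h1 (hz0 j) |>.2
    nlinarith
  have h1 : ((UU G n M x y J).card : ℝ) ≤
      ∑ j ∈ (range M).filter (fun j => j ∈ J), s * (W * ((p j + q j) / 2)) := by
    calc ((UU G n M x y J).card : ℝ) ≤
        ((∑ j ∈ (range M).filter (fun j => j ∈ J), (box G n x y j).card : ℕ) : ℝ) := by
          exact_mod_cast Finset.card_biUnion_le
      _ = ∑ j ∈ (range M).filter (fun j => j ∈ J), ((box G n x y j).card : ℝ) := by push_cast; rfl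
      _ ≤ _ := by
          apply Finset.sum_le_sum
          intro j hj
          simp only [hJ, mem_filter, mem_range] at hj
          exact (card_box hG hn hx hy j).trans (hin j hj.2.2)
  have h2 : s ^ 2 * (((range M).filter (fun j => j ∉ J)).card : ℝ) ≤
      ∑ j ∈ (range M).filter (fun j => j ∉ J), s * (W * ((p j + q j) / 2)) := by
    rw [mul_comm, ← nsmul_eq_mul, ← Finset.sum_const]
    apply Finset.sum_le_sum
    intro j hj
    simp only [hJ, mem_filter, mem_range] at hj
    exact hout j (fun h => hj.2 ⟨hj.1, h⟩)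
  have h3 : ∑ j ∈ range M, s * (W * ((p j + q j) / 2)) ≤ s * W * ((G : ℝ) + M) := by
    have hsum : ∀ M : ℕ, ∑ j ∈ range M, s * (W * ((p j + q j) / 2)) =
        s * W * (((x M : ℝ) - x 0 + M + ((y M : ℝ) - y 0 + M)) / 2) := by
      intro M
      induction M with
      | zero => simp
      | succ M ih =>
        rw [sum_range_succ, ih]
        simp only [hp, hq]
        push_cast
        ring
    rw [hsum]
    apply mul_le_mul_of_nonneg_left _ (by positivity)
    have h4 : (x M : ℝ) ≤ G := by exact_mod_cast (hxG M).le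
    have h5 : (y M : ℝ) ≤ G := by exact_mod_cast (hyG M).le
    have h6 : (0 : ℝ) ≤ x 0 := by positivity
    have h7 : (0 : ℝ) ≤ y 0 := by positivity
    linarith
  calc _ ≤ ∑ j ∈ (range M).filter (fun j => j ∈ J), s * (W * ((p j + q j) / 2)) +
        ∑ j ∈ (range M).filter (fun j => j ∉ J), s * (W * ((p j + q j) / 2)) := add_le_add h1 h2
    _ = ∑ j ∈ range M, s * (W * ((p j + q j) / 2)) := Finset.sum_filter_add_sum_filter_not _ _ _
    _ ≤ _ := h3

/-- Extension of a finite sequence. -/
def exts {M G : ℕ} (c : Fin (M + 1) → Fin G) (j : ℕ) : ℕ :=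
  (c ⟨min j M, Nat.lt_succ_of_le (min_le_right _ _)⟩ : ℕ)

theorem exts_mono {M G : ℕ} {c : Fin (M + 1) → Fin G} (hc : Monotone c) : Monotone (exts c) := by
  intro i j hij
  apply hc
  show min i M ≤ min j M
  omega

/-- A subsequence of length at least `m` gives one of length exactly `m`. -/
theorem exists_of_le_L {k n m : ℕ} (hm : 0 < m) (π : Perm (Fin n)) (h : m ≤ L (blk k) π) :
    ∃ (f : Fin m → Fin n) (g : Fin m → ℕ), StrictMono f ∧
      (∀ i j, g i < g j → i < j ∧ π (f i) < π (f j)) ∧
      ∀ v, (univ.filter (fun i => g i = v)).card ≤ k := by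
  classical
  set S := {l : ℕ | ∃ σ : Equiv.Perm (Fin l), (⟨l, σ⟩ : P) ∈ blk k ∧
    Contains ⟨l, σ⟩ ⟨n, π⟩} with hS
  have hbdd : BddAbove S := by
    refine ⟨n, ?_⟩
    rintro l ⟨σ, _, f, hf, _⟩
    have := Fintype.card_le_of_injective f hf.injective
    simpa using this
  have hne : S.Nonempty := by
    by_contra hne
    rw [Set.not_nonempty_iff_eq_empty] at hne
    have : L (blk k) π = sSup S := rfl
    rw [this, hne] at h
    simp at h
    omega
  obtain ⟨σ, ⟨g, hg, hk⟩, f, hf, hfσ⟩ := Nat.sSup_mem hne hbdd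
  have hml : m ≤ sSup S := h
  refine ⟨fun i => f (Fin.castLE hml i), fun i => g (Fin.castLE hml i), ?_, ?_, ?_⟩
  · intro i j hij
    apply hf
    exact hij
  · intro i j hij
    obtain ⟨h1, h2⟩ := hg _ _ hij
    refine ⟨h1, ?_⟩
    exact (hfσ _ _).1 h2
  · intro v
    refine le_trans ?_ (hk v)
    apply Finset.card_le_card_of_injOn (Fin.castLE hml)
    · intro i hi
      simpa using hi
    · intro i _ j _ hij
      exact Fin.castLE_injective hml hij

theorem L_le {A : Set P} {n : ℕ} (π : Perm (Fin n)) : L A π ≤ n := by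
  apply csSup_le'
  rintro l ⟨σ, _, f, hf, _⟩
  have := Fintype.card_le_of_injective f hf.injective
  simpa using this

/-- The number of permutations with a long subsequence made of small blocks. -/
theorem card_long {a Nn n : ℕ} (ha : 1 ≤ a) (hN : 1000 ≤ Nn) (hn1 : n ≤ 100 * a ^ 2 * Nn ^ 2)
    (hn2 : 100 * a ^ 2 * (Nn - 1) ^ 2 ≤ n) :
    ((univ.filter (fun π : Perm (Fin n) => 120 * a ^ 2 * Nn ≤ L (blk (100 * a ^ 2)) π)).card : ℝ) ≤
      (4 : ℝ) ^ (103 * Nn) * ((9 / 10 : ℝ) ^ (5 * a ^ 2 * Nn) * n.factorial) := by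
  classical
  set k := 100 * a ^ 2 with hk
  set m := 120 * a ^ 2 * Nn with hm
  set G := 100 * Nn with hG
  set M := 3 * Nn with hM
  set r := 5 * a ^ 2 * Nn with hr
  have hG0 : 0 < G := by omega
  have ha2 : 1 ≤ a ^ 2 := Nat.one_le_pow _ _ ha
  have hn0 : 0 < n := by
    have : 1 ≤ (Nn - 1) ^ 2 := Nat.one_le_pow _ _ (by omega)
    have : 1 * 1 ≤ a ^ 2 * (Nn - 1) ^ 2 := Nat.mul_le_mul ha2 this
    nlinarith
  have hm0 : 0 < m := by positivity
  -- real quantities
  set A : ℝ := ((a ^ 2 : ℕ) : ℝ) with hA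
  set V : ℝ := (Nn : ℝ) with hV
  have hA1 : 1 ≤ A := by rw [hA]; exact_mod_cast ha2
  have hV1 : 1000 ≤ V := by rw [hV]; exact_mod_cast hN
  have hkR : (k : ℝ) = 100 * A := by rw [hk, hA]; push_cast; ring
  have hmR : (m : ℝ) = 120 * A * V := by rw [hm, hA, hV]; push_cast; ring
  have hGR : (G : ℝ) = 100 * V := by rw [hG, hV]; push_cast; ring
  have hMR : (M : ℝ) = 3 * V := by rw [hM, hV]; push_cast; ring
  have hrR : (r : ℝ) = 5 * A * V := by rw [hr, hA, hV]; push_cast; ring
  have hn1R : (n : ℝ) ≤ 100 * A * V ^ 2 := by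
    have : (n : ℝ) ≤ ((100 * a ^ 2 * Nn ^ 2 : ℕ) : ℝ) := by exact_mod_cast hn1
    rw [hA, hV]; push_cast at this ⊢; linarith
  have hn2R : 100 * A * (V - 1) ^ 2 ≤ (n : ℝ) := by
    have : ((100 * a ^ 2 * (Nn - 1) ^ 2 : ℕ) : ℝ) ≤ n := by exact_mod_cast hn2
    have h1 : ((Nn - 1 : ℕ) : ℝ) = V - 1 := by
      rw [hV, Nat.cast_sub (by omega)]; simp
    push_cast at this
    rw [h1] at this
    rw [hA]; push_cast; linarith
  set s : ℝ := Real.sqrt (k * n) with hs
  have hs0 : 0 ≤ s := Real.sqrt_nonneg _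
  have hs2 : s ^ 2 = k * n := Real.sq_sqrt (by positivity)
  have hsle : s ≤ 100 * A * V := by
    rw [hs]
    apply Real.sqrt_le_iff.2
    constructor
    · positivity
    · rw [hkR]
      calc 100 * A * (n : ℝ) ≤ 100 * A * (100 * A * V ^ 2) := by gcongr
        _ = _ := by ring
  have hWle : (n : ℝ) / G + 1 ≤ A * V + 1 := by
    have : (n : ℝ) / G ≤ A * V := by
      rw [div_le_iff₀ (by positivity), hGR]
      calc (n : ℝ) ≤ 100 * A * V ^ 2 := hn1R
        _ = _ := by ring
    linarith
  have hprod : s * ((n : ℝ) / G + 1) * ((G : ℝ) + M) ≤ 10300 * A * V ^ 2 * (A * V + 1) := by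
    rw [hGR, hMR] at *
    calc s * ((n : ℝ) / (100 * V) + 1) * (100 * V + 3 * V)
        ≤ (100 * A * V) * (A * V + 1) * (100 * V + 3 * V) := by gcongr
      _ = _ := by ring
  -- the finite index set of grid chains
  set C := (univ : Finset (Fin (M + 1) → Fin G)).filter (fun c => Monotone c) with hC
  have harea : ∀ cd : (Fin (M + 1) → Fin G) × (Fin (M + 1) → Fin G), cd ∈ C ×ˢ C →
      ∃ J : Finset ℕ, ((UU G n M (exts cd.1) (exts cd.2) J).card : ℝ) +
        s ^ 2 * ((range M).filter (fun j => j ∉ J)).card ≤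
        s * ((n : ℝ) / G + 1) * ((G : ℝ) + M) := by
    intro cd hcd
    rw [mem_product] at hcd
    simp only [hC, mem_filter, mem_univ, true_and] at hcd
    exact area hG0 hn0 (exts_mono hcd.1) (exts_mono hcd.2) (fun j => (cd.1 _).2)
      (fun j => (cd.2 _).2) s hs0
  choose! J hJ using harea
  -- each chain has few permutations
  have hone : ∀ cd ∈ C ×ˢ C, ((univ.filter (fun π : Perm (Fin n) =>
      m ≤ N (UU G n M (exts cd.1) (exts cd.2) (J cd)) π +
        k * ((range M).filter (fun j => j ∉ J cd)).card)).card : ℝ) ≤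
        (9 / 10 : ℝ) ^ r * n.factorial := by
    intro cd hcd
    have h1 := hJ cd hcd
    set U := UU G n M (exts cd.1) (exts cd.2) (J cd) with hU
    set K := ((range M).filter (fun j => j ∉ J cd)).card with hK
    have hK0 : (0 : ℝ) ≤ (K : ℝ) := by positivity
    have hU0 : (0 : ℝ) ≤ (U.card : ℝ) := by positivity
    have hn0R : (0 : ℝ) < (n : ℝ) := by exact_mod_cast hn0
    rw [hs2, hkR] at h1
    have h2 : (U.card : ℝ) + 100 * A * n * K ≤ 10300 * A * V ^ 2 * (A * V + 1) := h1.trans hprod
    have hA0 : 0 < A := by linarith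
    have hV0 : 0 < V := by linarith
    have hKlt : (K : ℝ) < 115 / 100 * V := by
      by_contra hge
      rw [not_lt] at hge
      have h3 : 100 * A * n * K ≤ 10300 * A * V ^ 2 * (A * V + 1) := by linarith
      have h4 : (n : ℝ) * K ≤ 103 * V ^ 2 * (A * V + 1) := by
        have : (100 * A) * ((n : ℝ) * K) ≤ (100 * A) * (103 * V ^ 2 * (A * V + 1)) := by
          linarith
        exact le_of_mul_le_mul_left this (by positivity)
      have h5 : (100 * A * (V - 1) ^ 2) * (115 / 100 * V) ≤ (n : ℝ) * K := by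
        gcongr
      have h6 : 103 * V ^ 2 * (A * V + 1) < (100 * A * (V - 1) ^ 2) * (115 / 100 * V) := by
        have e1 : (100 * A * (V - 1) ^ 2) * (115 / 100 * V) =
          A * (115 * V ^ 3) - A * (230 * V ^ 2) + A * (115 * V) := by ring
        have e2 : 103 * V ^ 2 * (A * V + 1) = A * (103 * V ^ 3) + 103 * V ^ 2 := by ring
        rw [e1, e2]
        have e3 : A * (12000 * V ^ 2) ≤ A * (12 * V ^ 3) := by
          apply mul_le_mul_of_nonneg_left _ hA0.le
          have : 0 ≤ V ^ 2 := by positivity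
          nlinarith
        have e4 : 103 * V ^ 2 ≤ A * (103 * V ^ 2) := by
          have : 0 ≤ 103 * V ^ 2 := by positivity
          nlinarith
        have e5 : 0 < A * V := by positivity
        have e6 : 0 < A * V ^ 2 := by positivity
        nlinarith
      linarith
    have hkKm : k * K + r < m := by
      have : ((k * K + r : ℕ) : ℝ) < (m : ℝ) := by
        push_cast
        rw [hkR, hrR, hmR]
        have : 100 * A * K < 100 * A * (115 / 100 * V) := by gcongr
        linarith
      exact_mod_cast this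
    have hrn : r < n := by
      have : (r : ℝ) < n := by
        rw [hrR]
        refine lt_of_lt_of_le ?_ hn2R
        have : 5 * V < 100 * (V - 1) ^ 2 := by nlinarith
        calc 5 * A * V = A * (5 * V) := by ring
          _ < A * (100 * (V - 1) ^ 2) := by gcongr
          _ = _ := by ring
      exact_mod_cast this
    have hsub : (univ.filter (fun π : Perm (Fin n) => m ≤ N U π + k * K)) ⊆
        (univ.filter (fun π : Perm (Fin n) => m - k * K ≤ N U π)) := by
      intro π hπ
      simp only [mem_filter, mem_univ, true_and] at hπ ⊢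
      omega
    have hmain : (U.card : ℝ) ≤ (9 / 10 : ℝ) * ((((m - k * K : ℕ) : ℝ) - r) * ((n : ℝ) - r)) := by
      have hc : ((m - k * K : ℕ) : ℝ) = 120 * A * V - 100 * A * K := by
        rw [Nat.cast_sub (by omega)]
        push_cast
        rw [hmR, hkR]
      rw [hc, hrR]
      have e1 : (U.card : ℝ) ≤ 10300 * A * V ^ 2 * (A * V + 1) - 100 * A * n * K := by linarith
      refine e1.trans ?_
      have e2 : (9 / 10 : ℝ) * ((120 * A * V - 100 * A * K - 5 * A * V) * ((n : ℝ) - 5 * A * V)) -
          (10300 * A * V ^ 2 * (A * V + 1) - 100 * A * n * K) =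
          A * (207 / 2 * V * n - 1035 / 2 * A * V ^ 2 + 10 * (K * n) + 450 * (A * V * K) -
            10300 * A * V ^ 3 - 10300 * V ^ 2) := by ring
      have e3 : 0 ≤ 207 / 2 * V * n - 1035 / 2 * A * V ^ 2 + 10 * (K * n) + 450 * (A * V * K) -
            10300 * A * V ^ 3 - 10300 * V ^ 2 := by
        have e4 : 207 / 2 * V * (100 * A * (V - 1) ^ 2) ≤ 207 / 2 * V * n := by gcongr
        have e5 : 0 ≤ 10 * ((K : ℝ) * n) := by positivity
        have e6 : 0 ≤ 450 * (A * V * K) := by positivity
        have e7 : 207 / 2 * V * (100 * A * (V - 1) ^ 2) =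
          10350 * (A * V ^ 3) - 20700 * (A * V ^ 2) + 10350 * (A * V) := by ring
        have e8 : 50000 * (A * V ^ 2) ≤ 50 * (A * V ^ 3) := by
          have : 0 ≤ A * V ^ 2 := by positivity
          nlinarith
        have e9 : 10300 * V ^ 2 ≤ 10300 * (A * V ^ 2) := by
          have : 0 ≤ V ^ 2 := by positivity
          nlinarith
        have e10 : 0 ≤ A * V := by positivity
        have e11 : 0 ≤ A * V ^ 2 := by positivity
        nlinarith
      have := mul_nonneg hA0.le e3
      linarith
    calc ((univ.filter (fun π : Perm (Fin n) => m ≤ N U π + k * K)).card : ℝ)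
        ≤ ((univ.filter (fun π : Perm (Fin n) => m - k * K ≤ N U π)).card : ℝ) := by
          exact_mod_cast Finset.card_le_card hsub
      _ ≤ _ := card_many_real U (m - k * K) r (by omega) hrn (9 / 10) hmain
  -- every long permutation belongs to some chain
  have hcover : (univ.filter (fun π : Perm (Fin n) => m ≤ L (blk k) π)) ⊆
      (C ×ˢ C).biUnion (fun cd => univ.filter (fun π : Perm (Fin n) =>
      m ≤ N (UU G n M (exts cd.1) (exts cd.2) (J cd)) π +
        k * ((range M).filter (fun j => j ∉ J cd)).card)) := by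
    intro π hπ
    simp only [mem_filter, mem_univ, true_and] at hπ
    obtain ⟨f, g₀, hf, hg₀, hk₀⟩ := exists_of_le_L hm0 π hπ
    obtain ⟨M', g, hM', hgM', hg, hgk⟩ := merge (fun i j => i < j ∧ π (f i) < π (f j)) g₀ hg₀ hk₀
    have hM'le : M' ≤ M := by
      by_contra hlt
      rw [not_le] at hlt
      have h1 : 3 * Nn ≤ 2 * (M' / 2) := by omega
      have h2 : 3 * Nn * (k + 1) ≤ 2 * m := by
        calc 3 * Nn * (k + 1) ≤ 2 * (M' / 2) * (k + 1) := Nat.mul_le_mul_right _ h1
          _ = 2 * ((M' / 2) * (k + 1)) := by ring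
          _ ≤ 2 * m := Nat.mul_le_mul_left _ hM'
      have h3 : 3 * Nn * (k + 1) = 300 * (a ^ 2 * Nn) + 3 * Nn := by rw [hk]; ring
      have h4 : 2 * m = 240 * (a ^ 2 * Nn) := by rw [hm]; ring
      have h5 : 0 < a ^ 2 * Nn := by positivity
      omega
    obtain ⟨x, y, hx, hy, hxG, hyG, hxy⟩ := chain_of_blocks (n := n) (k := k) (G := G) (M := M)
      hG0 π f hf g (fun i => lt_of_lt_of_le (hgM' i) hM'le) hg hgk
    set c : Fin (M + 1) → Fin G := fun i => ⟨x i, hxG i⟩ with hc
    set d : Fin (M + 1) → Fin G := fun i => ⟨y i, hyG i⟩ with hd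
    have hcm : c ∈ C := by
      rw [hC, mem_filter]
      refine ⟨mem_univ _, ?_⟩
      intro i j hij
      exact hx hij
    have hdm : d ∈ C := by
      rw [hC, mem_filter]
      refine ⟨mem_univ _, ?_⟩
      intro i j hij
      exact hy hij
    rw [mem_biUnion]
    refine ⟨(c, d), mem_product.2 ⟨hcm, hdm⟩, ?_⟩
    simp only [mem_filter, mem_univ, true_and]
    have hbox : UU G n M (exts c) (exts d) (J (c, d)) = UU G n M x y (J (c, d)) := by
      unfold UU
      apply Finset.biUnion_congr rfl
      intro j hj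
      simp only [mem_filter, mem_range] at hj
      have e1 : exts c j = x j := by
        simp only [exts, hc]; congr 1; omega
      have e2 : exts c (j + 1) = x (j + 1) := by
        simp only [exts, hc]; congr 1; omega
      have e3 : exts d j = y j := by
        simp only [exts, hd]; congr 1; omega
      have e4 : exts d (j + 1) = y (j + 1) := by
        simp only [exts, hd]; congr 1; omega
      unfold box
      rw [e1, e2, e3, e4]
    rw [hbox]
    exact hxy (J (c, d))
  calc ((univ.filter (fun π : Perm (Fin n) => m ≤ L (blk k) π)).card : ℝ)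
      ≤ (((C ×ˢ C).biUnion (fun cd => univ.filter (fun π : Perm (Fin n) =>
      m ≤ N (UU G n M (exts cd.1) (exts cd.2) (J cd)) π +
        k * ((range M).filter (fun j => j ∉ J cd)).card))).card : ℝ) := by
        exact_mod_cast Finset.card_le_card hcover
    _ ≤ ((∑ cd ∈ C ×ˢ C, (univ.filter (fun π : Perm (Fin n) =>
      m ≤ N (UU G n M (exts cd.1) (exts cd.2) (J cd)) π +
        k * ((range M).filter (fun j => j ∉ J cd)).card)).card : ℕ) : ℝ) := by
        exact_mod_cast Finset.card_biUnion_le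
    _ = ∑ cd ∈ C ×ˢ C, ((univ.filter (fun π : Perm (Fin n) =>
      m ≤ N (UU G n M (exts cd.1) (exts cd.2) (J cd)) π +
        k * ((range M).filter (fun j => j ∉ J cd)).card)).card : ℝ) := by push_cast; rfl
    _ ≤ ∑ cd ∈ C ×ˢ C, (9 / 10 : ℝ) ^ r * n.factorial := Finset.sum_le_sum hone
    _ = ((C.card : ℝ) * C.card) * ((9 / 10 : ℝ) ^ r * n.factorial) := by
        rw [sum_const, card_product, nsmul_eq_mul]; push_cast; ring
    _ ≤ (4 : ℝ) ^ (103 * Nn) * ((9 / 10 : ℝ) ^ r * n.factorial) := by
        apply mul_le_mul_of_nonneg_right _ (by positivity)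
        have h1 : (C.card : ℝ) ≤ (2 : ℝ) ^ (G + M) := by exact_mod_cast card_monotone M G
        calc (C.card : ℝ) * C.card ≤ (2 : ℝ) ^ (G + M) * (2 : ℝ) ^ (G + M) := by gcongr
          _ = (4 : ℝ) ^ (G + M) := by rw [← mul_pow]; norm_num
          _ = _ := by congr 1; omega

end Pool.Agent.X143.PC
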